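import Pool.Agent.FTU.Stmts
import Pool.Agent.Helper32_MBX.DOY
import Pool.Agent.Helper64_MBX.SNF
import Pool.Agent.Helper52_MBX.NFC
import Pool.Agent.Helper28_MBX.NFI
import Pool.Agent.Helper27_MBX.SCL
import Pool.Agent.Helper10_MBX.SDY
import Pool.Agent.Helper19_MBX.SDX
import Pool.Agent.Helper83_Pauli.Symm

/-!
# FTU (MP_8cfbae_mp), row SEL: from trial functions to the self-energy
-/

set_option autoImplicit false

open MeasureTheory Complex ProbabilityTheory

namespace Pool.Agent.FTU.H23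

open Pool.Agent.Helper49_Pauli
open Pool.Agent.MBX
open Pool.Agent.Loc (γn PB)

theorem nsq_cmp (a b : S2) (t : ℝ) (ht : 0 < t) :
    nsq b ≤ (1 + t) * nsq a + (1 + 1 / t) * nsq (a - b) := by
  unfold nsq
  rw [Finset.mul_sum, Finset.mul_sum, ← Finset.sum_add_distrib]
  refine Finset.sum_le_sum fun s _ => ?_
  have h1 : ‖b s‖ ≤ ‖a s‖ + ‖(a - b) s‖ := by
    have h2 : b s = a s - (a - b) s := by
      rw [Pi.sub_apply]
      ring
    calc ‖b s‖ = ‖a s - (a - b) s‖ := by rw [← h2]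
      _ ≤ _ := norm_sub_le _ _
  have h0 := norm_nonneg (b s)
  obtain ⟨x, hx⟩ : ∃ x, x = ‖a s‖ := ⟨_, rfl⟩
  obtain ⟨y, hy⟩ : ∃ y, y = ‖(a - b) s‖ := ⟨_, rfl⟩
  rw [← hx, ← hy] at h1 ⊢
  have h3 : ‖b s‖ ^ 2 ≤ (x + y) ^ 2 := pow_le_pow_left₀ h0 h1 2
  have h4 : 0 ≤ (t * x - y) ^ 2 / t := by positivity
  have h5 : (t * x - y) ^ 2 / t = t * x ^ 2 - 2 * (x * y) + y ^ 2 / t := by
    field_simp
    ring
  rw [h5] at h4
  have h6 : (1 + 1 / t) * y ^ 2 = y ^ 2 + y ^ 2 / t := by ring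
  rw [h6]
  nlinarith

theorem nsq_symm (a b : S2) : nsq (a - b) = nsq (b - a) := by
  unfold nsq
  refine Finset.sum_congr rfl fun s _ => ?_
  rw [Pi.sub_apply, Pi.sub_apply, norm_sub_rev]

theorem int_nsq {ι : Type} [Fintype ι] [DecidableEq ι] {Psi : (ι → ℝ) → X3 → S2} (h : WW Psi) :
    Integrable (fun z : (ι → ℝ) × X3 => nsq (Psi z.1 z.2)) ((γn ι).prod volume) := by
  unfold nsq
  refine integrable_finset_sum _ fun s _ => ?_
  have h1 := (Pool.Agent.MBX.H64.snf ι _ (h s)).2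
  have h2 := ((Pool.Agent.MBX.H52.nfc ι _ h1).1 _ h1).2
  have h3 := Pool.Agent.MBX.H28.nfi ι _ h2
  refine h3.congr (Filter.Eventually.of_forall fun z => ?_)
  show ‖Psi z.1 z.2 s‖ * ‖Psi z.1 z.2 s‖ = ‖Psi z.1 z.2 s‖ ^ 2
  rw [pow_two]

theorem om_nonneg {cut L : ℝ} (i : Mode cut L) : 0 ≤ om i := Real.sqrt_nonneg _

theorem sel (hRVS : RvsStmt) (hDEN : DenStmt) (hSHF : ShfStmt) : SelStmt := by
  intro cut L alpha hL ha P D _ _ F psi e A B hTC hn0 hA hB
  obtain ⟨i1, i2, i3, e1, e2, e3⟩ := hSHF cut L alpha P psi e hTC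
  obtain ⟨n0, hn⟩ : ∃ n0, n0 = II (fun y x => nsq (psi y x)) := ⟨_, rfl⟩
  obtain ⟨s, hs⟩ : ∃ s, s = selfEnergy alpha F P := ⟨_, rfl⟩
  have hs0 : 0 ≤ s := by
    rw [hs]
    exact selfEnergy_nonneg symm hL P ha F
  obtain ⟨M, hM⟩ : ∃ M, M = A / 2 + 2 * B + (∑ i, om i * e i ^ 2) / 2 := ⟨_, rfl⟩
  rw [← hn] at hn0 hA hB e1 e3
  -- the energy of the displaced trial function
  obtain ⟨Ea, hEa⟩ : ∃ Ea, Ea = 1 / 2 * II (fun y x => nsq (dop (VV alpha P y) (dsp e psi y) x)) +
    II (fun y x => ∑ i, om i * nsq (dY2 i (dsp e psi) y x)) := ⟨_, rfl⟩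
  have hEaM : Ea ≤ M * n0 := by
    rw [hEa, e2, hM]
    have h1 := e3
    nlinarith
  have hEa0 : 0 ≤ Ea := by
    rw [hEa]
    refine add_nonneg (mul_nonneg (by norm_num) (integral_nonneg fun z => nsq_nonneg _))
      (integral_nonneg fun z => Finset.sum_nonneg fun i _ => mul_nonneg (om_nonneg i) (nsq_nonneg _))
  have hM0 : 0 ≤ M := by
    by_contra h
    push Not at h
    nlinarith
  have main : ∀ t : ℝ, 0 < t → ∀ del : ℝ, 0 < del →
      s * n0 ≤ (1 + t) ^ 2 * (M * n0) + (1 + 1 / t) * (1 + t + s) * del := by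
    intro t ht del hdel
    obtain ⟨Psi, hW, iH, hH⟩ := hDEN cut L alpha P psi e hTC del hdel
    obtain ⟨st, h1, h2, h3⟩ := hRVS cut L alpha hL ha P D F Psi hW
    have hdoy := Pool.Agent.MBX.H32.doy Pool.Agent.MBX.H27.scl Pool.Agent.MBX.H10.sdy
      (Pool.Agent.MBX.H19.sdx Pool.Agent.MBX.H10.sdy) cut L alpha P Psi hW
    have j1 := int_nsq hW
    have j2 := int_nsq hdoy.1
    have j3 : Integrable (fun z : (Mode cut L → ℝ) × X3 => ∑ i, om i * nsq (dY2 i Psi z.1 z.2))
        ((γn (Mode cut L)).prod volume) :=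
      integrable_finset_sum _ fun i _ => (int_nsq (hdoy.2.2.1 i)).const_mul _
    obtain ⟨N, hN⟩ : ∃ N, N = II (fun y x => nsq (Psi y x)) := ⟨_, rfl⟩
    obtain ⟨E, hE⟩ : ∃ E, E = 1 / 2 * II (fun y x => nsq (DD alpha P Psi y x)) +
      II (fun y x => ∑ i, om i * nsq (dY2 i Psi y x)) := ⟨_, rfl⟩
    rw [← hN] at h2
    rw [← hE] at h3
    -- the variational principle
    have hvar : s * N ≤ E := by
      rcases (normSq_nonneg st).lt_or_eq with h4 | h4
      · have h5 : selfEnergy alpha F P ≤ energy alpha F P st / normSq st := by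
          refine selfEnergy_le symm hL P ha F h1 h4 ?_
          rw [div_mul_cancel₀ _ h4.ne']
        rw [← hs, le_div_iff₀ h4, h2, h3] at h5
        exact h5
      · have h5 := energy_nonneg symm hL P ha F h1
        rw [← h2, ← h4, mul_zero, ← h3]
        exact h5
    have ht1 : 0 ≤ 1 + 1 / t := by positivity
    have hHd : ∀ y x, nsq (dsp e psi y x - Psi y x) ≤ Hd alpha P e psi Psi y x := by
      intro y x
      unfold Hd
      have g1 := nsq_nonneg (dop (VV alpha P y) (dsp e psi y) x - DD alpha P Psi y x)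
      have g2 : 0 ≤ ∑ i, om i * nsq (dY2 i (dsp e psi) y x - dY2 i Psi y x) :=
        Finset.sum_nonneg fun i _ => mul_nonneg (om_nonneg i) (nsq_nonneg _)
      linarith
    have hHd' : ∀ y x, 1 / 2 * nsq (dop (VV alpha P y) (dsp e psi y) x - DD alpha P Psi y x) +
        ∑ i, om i * nsq (dY2 i (dsp e psi) y x - dY2 i Psi y x) ≤
        Hd alpha P e psi Psi y x := by
      intro y x
      unfold Hd
      have g1 := nsq_nonneg (dop (VV alpha P y) (dsp e psi y) x - DD alpha P Psi y x)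
      have g2 := nsq_nonneg (dsp e psi y x - Psi y x)
      linarith
    -- comparison of the norms
    have c1 : n0 ≤ (1 + t) * N + (1 + 1 / t) * II (Hd alpha P e psi Psi) := by
      have k1 : II (fun y x => nsq (dsp e psi y x)) ≤
          ∫ z : (Mode cut L → ℝ) × X3, ((1 + t) * nsq (Psi z.1 z.2) +
            (1 + 1 / t) * Hd alpha P e psi Psi z.1 z.2) ∂((γn (Mode cut L)).prod volume) := by
        unfold II
        refine integral_mono i1 ((j1.const_mul _).add (iH.const_mul _)) fun z => ?_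
        show nsq (dsp e psi z.1 z.2) ≤ (1 + t) * nsq (Psi z.1 z.2) +
            (1 + 1 / t) * Hd alpha P e psi Psi z.1 z.2
        have k2 := nsq_cmp (Psi z.1 z.2) (dsp e psi z.1 z.2) t ht
        rw [nsq_symm] at k2
        have k3 := mul_le_mul_of_nonneg_left (hHd z.1 z.2) ht1
        linarith
      rw [e1, integral_add (j1.const_mul _) (iH.const_mul _), integral_const_mul,
        integral_const_mul] at k1
      rw [hN]
      exact k1
    -- comparison of the energies
    have c2 : E ≤ (1 + t) * Ea + (1 + 1 / t) * II (Hd alpha P e psi Psi) := by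
      have k1 : (∫ z : (Mode cut L → ℝ) × X3, (1 / 2 * nsq (DD alpha P Psi z.1 z.2) +
          ∑ i, om i * nsq (dY2 i Psi z.1 z.2)) ∂((γn (Mode cut L)).prod volume)) ≤
          ∫ z : (Mode cut L → ℝ) × X3, ((1 + t) *
            (1 / 2 * nsq (dop (VV alpha P z.1) (dsp e psi z.1) z.2) +
              ∑ i, om i * nsq (dY2 i (dsp e psi) z.1 z.2)) +
            (1 + 1 / t) * Hd alpha P e psi Psi z.1 z.2) ∂((γn (Mode cut L)).prod volume) := by
        refine integral_mono ((j2.const_mul _).add j3)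
          ((((i2.const_mul _).add i3).const_mul _).add (iH.const_mul _)) fun z => ?_
        show 1 / 2 * nsq (DD alpha P Psi z.1 z.2) + ∑ i, om i * nsq (dY2 i Psi z.1 z.2) ≤
          (1 + t) * (1 / 2 * nsq (dop (VV alpha P z.1) (dsp e psi z.1) z.2) +
              ∑ i, om i * nsq (dY2 i (dsp e psi) z.1 z.2)) +
            (1 + 1 / t) * Hd alpha P e psi Psi z.1 z.2
        have k2 := nsq_cmp (dop (VV alpha P z.1) (dsp e psi z.1) z.2) (DD alpha P Psi z.1 z.2) t ht
        have k3 : ∑ i, om i * nsq (dY2 i Psi z.1 z.2) ≤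
            (1 + t) * ∑ i, om i * nsq (dY2 i (dsp e psi) z.1 z.2) +
              (1 + 1 / t) * ∑ i, om i * nsq (dY2 i (dsp e psi) z.1 z.2 - dY2 i Psi z.1 z.2) := by
          rw [Finset.mul_sum, Finset.mul_sum, ← Finset.sum_add_distrib]
          refine Finset.sum_le_sum fun i _ => ?_
          have k4 := mul_le_mul_of_nonneg_left
            (nsq_cmp (dY2 i (dsp e psi) z.1 z.2) (dY2 i Psi z.1 z.2) t ht) (om_nonneg i)
          calc om i * nsq (dY2 i Psi z.1 z.2) ≤ _ := k4
            _ = _ := by ring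
        have k5 := mul_le_mul_of_nonneg_left (hHd' z.1 z.2) ht1
        linarith
      have w1 : Integrable (fun z : (Mode cut L → ℝ) × X3 => (1 + t) *
            (1 / 2 * nsq (dop (VV alpha P z.1) (dsp e psi z.1) z.2) +
              ∑ i, om i * nsq (dY2 i (dsp e psi) z.1 z.2))) ((γn (Mode cut L)).prod volume) :=
        ((i2.const_mul _).add i3).const_mul _
      have w2 : (∫ z : (Mode cut L → ℝ) × X3, (1 / 2 *
          nsq (dop (VV alpha P z.1) (dsp e psi z.1) z.2) +
            ∑ i, om i * nsq (dY2 i (dsp e psi) z.1 z.2)) ∂((γn (Mode cut L)).prod volume)) =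
          1 / 2 * II (fun y x => nsq (dop (VV alpha P y) (dsp e psi y) x)) +
            II (fun y x => ∑ i, om i * nsq (dY2 i (dsp e psi) y x)) := by
        rw [integral_add (i2.const_mul _) i3, integral_const_mul]
        rfl
      rw [integral_add (j2.const_mul _) j3, integral_add w1 (iH.const_mul _),
        integral_const_mul, integral_const_mul, integral_const_mul, w2] at k1
      rw [hE, hEa]
      exact k1
    -- conclusion
    have k6 : (1 + 1 / t) * II (Hd alpha P e psi Psi) ≤ (1 + 1 / t) * del :=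
      mul_le_mul_of_nonneg_left hH ht1
    have k7 : s * n0 ≤ s * ((1 + t) * N + (1 + 1 / t) * del) :=
      mul_le_mul_of_nonneg_left (by linarith) hs0
    have k8 : (1 + t) * (s * N) ≤ (1 + t) * ((1 + t) * Ea + (1 + 1 / t) * del) :=
      mul_le_mul_of_nonneg_left (by linarith) (by linarith)
    have k9 : (1 + t) ^ 2 * Ea ≤ (1 + t) ^ 2 * (M * n0) :=
      mul_le_mul_of_nonneg_left hEaM (sq_nonneg _)
    calc s * n0 ≤ s * ((1 + t) * N + (1 + 1 / t) * del) := k7
      _ = (1 + t) * (s * N) + s * ((1 + 1 / t) * del) := by ring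
      _ ≤ (1 + t) * ((1 + t) * Ea + (1 + 1 / t) * del) + s * ((1 + 1 / t) * del) := by linarith
      _ = (1 + t) ^ 2 * Ea + (1 + 1 / t) * (1 + t + s) * del := by ring
      _ ≤ _ := by linarith
  have main2 : ∀ t : ℝ, 0 < t → s ≤ (1 + t) ^ 2 * M := by
    intro t ht
    have h1 : s * n0 ≤ (1 + t) ^ 2 * (M * n0) := by
      refine le_of_forall_pos_le_add fun ε hε => ?_
      have h2 : 0 < (1 + 1 / t) * (1 + t + s) := by positivity
      have h3 := main t ht (ε / ((1 + 1 / t) * (1 + t + s))) (div_pos hε h2)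
      rw [mul_div_cancel₀ _ h2.ne'] at h3
      exact h3
    have h4 : s * n0 ≤ ((1 + t) ^ 2 * M) * n0 := by linarith
    exact le_of_mul_le_mul_right h4 hn0
  rw [← hs, ← hM]
  refine le_of_forall_pos_le_add fun ε hε => ?_
  have h1 : 0 < 3 * M + 1 := by linarith
  obtain ⟨t, ht⟩ : ∃ t, t = min 1 (ε / (3 * M + 1)) := ⟨_, rfl⟩
  have t0 : 0 < t := by
    rw [ht]
    exact lt_min one_pos (div_pos hε h1)
  have t1 : t ≤ 1 := by rw [ht]; exact min_le_left _ _
  have t2 : t * (3 * M + 1) ≤ ε := by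
    rw [← le_div_iff₀ h1, ht]
    exact min_le_right _ _
  have h2 := main2 t t0
  nlinarith

end Pool.Agent.FTU.H23
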